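import Pool.Agent.Lib_helper32.JO.N1

set_option autoImplicit false

namespace Pool.Agent.JO

open Complex MeasureTheory Filter Topology
open UpperHalfPlane hiding I
open scoped MatrixGroups ComplexConjugate ENNReal

variable {N : ℕ} [NeZero N]

/-- a point with `gx x t = gg (t + i / |x|²) a` -/
theorem jb_hec_gx {x : ℂ} (hx : x ≠ 0) : ∃ (a : ℝ) (z : ℝ → ℍ), Measurable z ∧ ∀ t, gx x t = gg (z t) a := by
  have hn : 0 < ‖x‖ := norm_pos_iff.2 hx
  have hy : 0 < 1 / ‖x‖ ^ 2 := by positivity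
  refine ⟨Complex.arg (-I * x), fun t => ⟨⟨t, 1 / ‖x‖ ^ 2⟩, hy⟩, ?_, ?_⟩
  · refine Continuous.measurable ?_
    rw [UpperHalfPlane.isEmbedding_coe.continuous_iff]
    have : (UpperHalfPlane.coe ∘ fun t : ℝ => (⟨⟨t, 1 / ‖x‖ ^ 2⟩, hy⟩ : ℍ)) = fun t : ℝ => (t : ℂ) + ((1 / ‖x‖ ^ 2 : ℝ) : ℂ) * I := by
      funext t
      apply Complex.ext
      · simp [-ofReal_div, -ofReal_pow]
      · simp [-ofReal_div, -ofReal_pow]
    rw [this]
    fun_prop
  · intro t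
    rw [gx_eq_gg]
    have him : UpperHalfPlane.im (⟨⟨t, 1 / ‖x‖ ^ 2⟩, hy⟩ : ℍ) = 1 / ‖x‖ ^ 2 := rfl
    have hre : UpperHalfPlane.re (⟨⟨t, 1 / ‖x‖ ^ 2⟩, hy⟩ : ℍ) = t := rfl
    rw [him, hre]
    congr 1
    have h1 : √(1 / ‖x‖ ^ 2) = 1 / ‖x‖ := by
      rw [Real.sqrt_div zero_le_one, Real.sqrt_one, Real.sqrt_sq hn.le]
    have h2 : ‖-I * x‖ = ‖x‖ := by rw [norm_mul, norm_neg, norm_I, one_mul]
    have h3 := Complex.norm_mul_exp_arg_mul_I (-I * x)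
    rw [h2] at h3
    rw [h1]
    push_cast
    rw [div_div_eq_mul_div, div_one]
    calc x = I * (-I * x) := by
          rw [← mul_assoc, mul_neg, I_mul_I]; ring
      _ = I * (‖x‖ * cexp ((Complex.arg (-I * x)) * I)) := by rw [h3]
      _ = _ := by ring

theorem jb_hec_int {F : QN N → SL(2, ℝ) → ℂ} (hF : MF F) (hb : ∃ B : ℝ, ∀ s g, ‖F s g‖ ≤ B) {x : ℂ} (hx : x ≠ 0)
    (s : QN N) : IntervalIntegrable (fun t => F s (gx x t)) volume 0 1 := by
  obtain ⟨a, z, hz, hzx⟩ := jb_hec_gx hx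
  obtain ⟨B, hB⟩ := hb
  have hm : Measurable (fun t => F s (gx x t)) := by
    have h1 : (fun t => F s (gx x t)) = (fun p : ℍ × ℝ => F s (gg p.1 p.2)) ∘ (fun t => (z t, a)) := by
      funext t
      rw [Function.comp_apply, hzx]
    rw [h1]
    exact (hF.2 s).comp (hz.prodMk measurable_const)
  rw [intervalIntegrable_iff_integrableOn_Ioc_of_le zero_le_one]
  exact Measure.integrableOn_of_bounded (M := B) (by simp) hm.aestronglyMeasurable
    (Eventually.of_forall fun t => hB s _)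

theorem jb_hec_cf_lin {F G : QN N → SL(2, ℝ) → ℂ} (hF : MF F) (hFb : ∃ B : ℝ, ∀ s g, ‖F s g‖ ≤ B) (hG : MF G)
    (hGb : ∃ B : ℝ, ∀ s g, ‖G s g‖ ≤ B) (a b : ℂ) {x : ℂ} (hx : x ≠ 0) (v : ZMod N × ZMod N) :
    CF (fun s g => a * F s g + b * G s g) x v = a * CF F x v + b * CF G x v := by
  unfold CF
  have h1 : ∀ s : QN N, (if bot s = v then ∫ t in (0 : ℝ)..1, (a * F s (gx x t) + b * G s (gx x t)) else 0)
      = a * (if bot s = v then ∫ t in (0 : ℝ)..1, F s (gx x t) else 0)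
        + b * (if bot s = v then ∫ t in (0 : ℝ)..1, G s (gx x t) else 0) := by
    intro s
    by_cases h : bot s = v
    · rw [if_pos h, if_pos h, if_pos h, intervalIntegral.integral_add ((jb_hec_int hF hFb hx s).const_mul a)
        ((jb_hec_int hG hGb hx s).const_mul b), intervalIntegral.integral_const_mul, intervalIntegral.integral_const_mul]
    · rw [if_neg h, if_neg h, if_neg h]; ring
  rw [Finset.sum_congr rfl (fun s _ => h1 s), Finset.sum_add_distrib, ← Finset.mul_sum, ← Finset.mul_sum]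
  ring

theorem jb_hec_mf_lin {F G : QN N → SL(2, ℝ) → ℂ} (hF : MF F) (hG : MF G) (a b : ℂ) :
    MF (fun s g => a * F s g + b * G s g) := by
  refine ⟨fun γ s g => ?_, fun s => ?_⟩
  · simp only
    rw [hF.1 γ s g, hG.1 γ s g]
  · exact ((hF.2 s).const_mul a).add ((hG.2 s).const_mul b)

theorem jb_hec_bd_lin {F G : QN N → SL(2, ℝ) → ℂ} (hF : ∃ B : ℝ, ∀ s g, ‖F s g‖ ≤ B)
    (hG : ∃ B : ℝ, ∀ s g, ‖G s g‖ ≤ B) (a b : ℂ) :
    ∃ B : ℝ, ∀ s g, ‖a * F s g + b * G s g‖ ≤ B := by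
  obtain ⟨B, hB⟩ := hF
  obtain ⟨D, hD⟩ := hG
  refine ⟨‖a‖ * B + ‖b‖ * D, fun s g => ?_⟩
  refine (norm_add_le _ _).trans ?_
  rw [norm_mul, norm_mul]
  exact add_le_add (mul_le_mul_of_nonneg_left (hB s g) (norm_nonneg _))
    (mul_le_mul_of_nonneg_left (hD s g) (norm_nonneg _))

theorem jb_hec_bd_Tm {F : QN N → SL(2, ℝ) → ℂ} (hF : ∃ B : ℝ, ∀ s g, ‖F s g‖ ≤ B) (p : ℕ) :
    ∃ B : ℝ, ∀ s g, ‖Tm p F s g‖ ≤ B := by
  obtain ⟨B, hB⟩ := hF
  refine ⟨‖(p : ℂ)⁻¹‖ * ∑ t ∈ HM (p ^ 2), B, fun s g => ?_⟩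
  unfold Tm
  rw [norm_mul]
  refine mul_le_mul_of_nonneg_left ?_ (norm_nonneg _)
  exact (norm_sum_le _ _).trans (Finset.sum_le_sum fun t _ => hB _ _)

/-- `MP` of a bounded family is a bounded measurable family; its constant term -/
theorem mp_mf_pr {F : QN N → SL(2, ℝ) → ℂ} (hF : MF F) (hb : ∃ B : ℝ, ∀ s g, ‖F s g‖ ≤ B) (l : ℂ)
    {PP : Finset ℕ} (hPP : ∀ p ∈ PP, p.Prime ∧ ¬ p ∣ N) :
    MF (MP l PP F) ∧ (∃ B : ℝ, ∀ s g, ‖MP l PP F s g‖ ≤ B) ∧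
      ∀ (x : ℂ) (v : ZMod N × ZMod N), x ≠ 0 → v ∈ PV N →
        CF (MP l PP F) x v = c2 l PP (CF F) x v := by
  classical
  induction PP using Finset.induction_on with
  | empty =>
    have e : MP l ∅ F = fun s g => l * F s g + 0 * F s g := by
      funext s g
      unfold MP
      rw [Finset.sum_empty, zero_mul]
    rw [e]
    refine ⟨jb_hec_mf_lin hF hF l 0, jb_hec_bd_lin hb hb l 0, fun x v hx hv => ?_⟩
    rw [jb_hec_cf_lin hF hb hF hb l 0 hx v]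
    unfold c2
    rw [Finset.sum_empty, zero_mul]
  | insert p PP hp ih =>
    obtain ⟨h1, h2, h3⟩ := ih (fun q hq => hPP q (Finset.mem_insert_of_mem hq))
    obtain ⟨hpp, hpN⟩ := hPP p (Finset.mem_insert_self _ _)
    obtain ⟨h4, h5⟩ := boxE4 (N := N) F hF hb p hpp hpN
    have h6 := jb_hec_bd_Tm hb p
    have e : MP l (insert p PP) F = fun s g => 1 * MP l PP F s g + 1 * Tm p F s g := by
      funext s g
      unfold MP
      rw [Finset.sum_insert hp]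
      ring
    rw [e]
    refine ⟨jb_hec_mf_lin h1 h4 1 1, jb_hec_bd_lin h2 h6 1 1, fun x v hx hv => ?_⟩
    rw [jb_hec_cf_lin h1 h2 h4 h6 1 1 hx v, h3 x v hx hv, h5 x v hx hv]
    unfold c2
    rw [Finset.sum_insert hp]
    ring


theorem jb_hec_ne : ∀ᵐ x : ℂ, x ≠ 0 := by
  rw [ae_iff]
  simp

/-- a nonzero constant is not square integrable -/
theorem jb_hec_const {C : ℂ} (h : MemLp (fun _ : ℂ => C) 2 volume) : C = 0 := by
  rcases (memLp_const_iff (by norm_num) (by norm_num)).1 h with h1 | h1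
  · exact h1
  · exfalso
    rw [measure_univ_of_isAddLeftInvariant] at h1
    exact lt_irrefl _ h1

theorem jb_hec_scale {h : ℂ → ℂ} (hh : MemLp h 2 volume) {c : ℝ} (hc : c ≠ 0) :
    MemLp (fun x : ℂ => h ((c : ℂ) * x)) 2 volume := by
  have hq : Measure.QuasiMeasurePreserving (fun x : ℂ => (c : ℂ) * x) volume volume := by
    have e : (fun x : ℂ => (c : ℂ) * x) = fun x : ℂ => c • x := by
      funext x; rw [Complex.real_smul]
    rw [e]
    exact Measure.quasiMeasurePreserving_smul volume hc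
  have hm : AEStronglyMeasurable (fun x : ℂ => h ((c : ℂ) * x)) volume := hh.1.comp_quasiMeasurePreserving hq
  rw [memLp_two_iff_integrable_sq_norm hm]
  have h1 := (memLp_two_iff_integrable_sq_norm hh.1).1 hh
  have h2 := h1.comp_smul hc
  refine h2.congr (Eventually.of_forall fun x => ?_)
  simp only [Complex.real_smul]

theorem jb_hec_c2_memLp {g : ℂ → ZMod N × ZMod N → ℂ} (hg : ∀ v ∈ PV N, MemLp (fun x => g x v) 2 volume) (l : ℂ)
    {PP : Finset ℕ} (hPP : ∀ p ∈ PP, p.Prime ∧ ¬ p ∣ N) {v : ZMod N × ZMod N} (hv : v ∈ PV N) :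
    MemLp (fun x => c2 l PP g x v) 2 volume := by
  unfold c2
  refine MemLp.add ((hg v hv).const_mul l) ?_
  refine memLp_finsetSum _ fun p hp => ?_
  obtain ⟨hpp, hpN⟩ := hPP p hp
  have hp0 : (p : ℝ) ≠ 0 := by exact_mod_cast hpp.ne_zero
  have hcop : p.Coprime N := (Nat.Prime.coprime_iff_not_dvd hpp).2 hpN
  have h1 : ((p : ZMod N) * v.1, (p : ZMod N) * v.2) ∈ PV N := (mul_mem_PV v p).2 ⟨hv, hcop⟩
  have hu : (p : ZMod N) * (p : ZMod N)⁻¹ = 1 := ZMod.coe_mul_inv_eq_one p hcop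
  have h2 : ((p : ZMod N)⁻¹ * v.1, (p : ZMod N)⁻¹ * v.2) ∈ PV N := by
    refine ((mul_mem_PV ((p : ZMod N)⁻¹ * v.1, (p : ZMod N)⁻¹ * v.2) p).1 ?_).1
    have e1 : (p : ZMod N) * ((p : ZMod N)⁻¹ * v.1) = v.1 := by rw [← mul_assoc, hu, one_mul]
    have e2 : (p : ZMod N) * ((p : ZMod N)⁻¹ * v.2) = v.2 := by rw [← mul_assoc, hu, one_mul]
    simp only [e1, e2]
    exact hv
  have e1 : (fun x : ℂ => (p : ℂ)⁻¹ * g (x / p) ((p : ZMod N)⁻¹ * v.1, (p : ZMod N)⁻¹ * v.2))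
      = fun x : ℂ => (p : ℂ)⁻¹ * g (((((p : ℝ)⁻¹ : ℝ)) : ℂ) * x) ((p : ZMod N)⁻¹ * v.1, (p : ZMod N)⁻¹ * v.2) := by
    funext x
    congr 2
    push_cast
    rw [div_eq_inv_mul]
  have e2 : (fun x : ℂ => (p : ℂ) * g (p * x) ((p : ZMod N) * v.1, (p : ZMod N) * v.2))
      = fun x : ℂ => (p : ℂ) * g ((((p : ℝ)) : ℂ) * x) ((p : ZMod N) * v.1, (p : ZMod N) * v.2) := by
    funext x
    push_cast
    rfl
  have h3 : MemLp (fun x : ℂ => (p : ℂ)⁻¹ * g (x / p) ((p : ZMod N)⁻¹ * v.1, (p : ZMod N)⁻¹ * v.2)) 2 volume := by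
    rw [e1]
    exact (jb_hec_scale (hg _ h2) (inv_ne_zero hp0)).const_mul _
  have h4 : MemLp (fun x : ℂ => (p : ℂ) * g (p * x) ((p : ZMod N) * v.1, (p : ZMod N) * v.2)) 2 volume := by
    rw [e2]
    exact (jb_hec_scale (hg _ h1) hp0).const_mul _
  exact (h3.add (hg v hv)).add h4

/-- the constant cancels because a nonzero constant is not square integrable on `ℂ` -/
theorem hec_step_pr {F : QN N → SL(2, ℝ) → ℂ} (hF : MF F) (hb : ∃ B : ℝ, ∀ s g, ‖F s g‖ ≤ B) (l : ℂ)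
    {PP : Finset ℕ} (hPP : ∀ p ∈ PP, p.Prime ∧ ¬ p ∣ N) :
    (∀ v ∈ PV N, Integrable fun x : ℂ => ‖CF F x v - mean F‖ ^ 2) ∧
    (∀ v ∈ PV N, Integrable fun x : ℂ => ‖c2 l PP (fun x v => CF F x v - mean F) x v‖ ^ 2) ∧
    ENNReal.ofReal (2 * N * ∑ v ∈ PV N,
        ∫ x : ℂ, ‖c2 l PP (fun x v => CF F x v - mean F) x v‖ ^ 2) ≤
      2 * nG (MP l PP F) := by
  set g : ℂ → ZMod N × ZMod N → ℂ := fun x v => CF F x v - mean F with hg
  obtain ⟨hs1, hm1, -⟩ := mean_sub hF hb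
  obtain ⟨hS1, -⟩ := boxE2 (N := N) _ hs1 hm1
  have hgL : ∀ v ∈ PV N, MemLp (fun x => g x v) 2 volume := by
    intro v hv
    have h1 : MemLp (fun x => CF (fun s g => F s g - mean F) x v) 2 volume :=
      (memLp_two_iff_integrable_sq_norm (hS1.meas v).aestronglyMeasurable).2 (hS1.sq v hv)
    refine (memLp_congr_ae ?_).1 h1
    filter_upwards [jb_hec_ne] with x hx
    exact cf_sub_const hF hb (mean F) hx hv
  have hcL : ∀ v ∈ PV N, MemLp (fun x => c2 l PP g x v) 2 volume := fun v hv => jb_hec_c2_memLp hgL l hPP hv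
  refine ⟨fun v hv => (memLp_two_iff_integrable_sq_norm (hgL v hv).1).1 (hgL v hv),
    fun v hv => (memLp_two_iff_integrable_sq_norm (hcL v hv).1).1 (hcL v hv), ?_⟩
  obtain ⟨hM1, hM2, hM3⟩ := mp_mf_pr hF hb l hPP
  obtain ⟨hs2, hm2, hle⟩ := mean_sub hM1 hM2
  obtain ⟨hS2, hB2⟩ := boxE2 (N := N) _ hs2 hm2
  set F2 : QN N → SL(2, ℝ) → ℂ := fun s g => MP l PP F s g - mean (MP l PP F) with hF2
  obtain ⟨C, hC⟩ : ∃ C : ℂ, ∀ x v, x ≠ 0 → v ∈ PV N → CF F2 x v = c2 l PP g x v + C := by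
    refine ⟨mean F * (l + ∑ p ∈ PP, ((p : ℂ)⁻¹ + 1 + (p : ℂ))) - mean (MP l PP F), fun x v hx hv => ?_⟩
    have h1 : CF F2 x v = CF (MP l PP F) x v - mean (MP l PP F) := cf_sub_const hM1 hM2 _ hx hv
    rw [h1, hM3 x v hx hv]
    have h2 : c2 l PP (CF F) x v = c2 l PP g x v + mean F * (l + ∑ p ∈ PP, ((p : ℂ)⁻¹ + 1 + (p : ℂ))) := by
      unfold c2
      simp only [hg]
      rw [mul_add, Finset.mul_sum, add_add_add_comm, ← Finset.sum_add_distrib]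
      congr 1
      · ring
      · exact Finset.sum_congr rfl fun p _ => by ring
    rw [h2]
    ring
  have hC0 : C = 0 := by
    have hv : bot (1 : QN N) ∈ PV N := by
      unfold PV
      exact Finset.mem_image_of_mem _ (Finset.mem_univ _)
    have h1 : MemLp (fun x => CF F2 x (bot (1 : QN N))) 2 volume :=
      (memLp_two_iff_integrable_sq_norm (hS2.meas _).aestronglyMeasurable).2 (hS2.sq _ hv)
    refine jb_hec_const ((memLp_congr_ae ?_).1 (h1.sub (hcL _ hv)))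
    filter_upwards [jb_hec_ne] with x hx
    rw [Pi.sub_apply, hC x _ hx hv]
    ring
  have hI : ∀ v ∈ PV N, ∫ x : ℂ, ‖c2 l PP g x v‖ ^ 2 = ∫ x : ℂ, ‖CF F2 x v‖ ^ 2 := by
    intro v hv
    refine integral_congr_ae ?_
    filter_upwards [jb_hec_ne] with x hx
    rw [hC x v hx hv, hC0, add_zero]
  rw [Finset.sum_congr rfl hI]
  have h3 : 2 * (N : ℝ) * ∑ v ∈ PV N, ∫ x : ℂ, ‖CF F2 x v‖ ^ 2 ≤ 2 * (ip F2 F2).re := hB2
  refine (ENNReal.ofReal_le_ofReal h3).trans ?_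
  rw [ENNReal.ofReal_mul (by norm_num)]
  have h4 : ENNReal.ofReal 2 = 2 := by norm_num
  rw [h4]
  exact mul_le_mul_right hle 2

end Pool.Agent.JO
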